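import Pool.Agent.X145.FD.Limit

/-!
# MP_4df60b_co, Q1: the fractional dimension of the convex geometries `P(k,n)` (full answer)

For every `k ≥ 1` the fractional dimension of `P(k,n)` tends to `(k+1)^(k+1) / k^k` as `n → ∞`, and never exceeds it.
This number is `4 = 2^(k+1)` for `k = 1` and is smaller than `2^(k+1)` for every `k ≥ 2` (`27/4 < 8` for `k = 2`),
so the conjecture of Q1 is false.

Upper bound: a random `X ⊆ [n]` with density `1/(k+1)` (instead of `1/2`), and the linear extensions ordered by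
`max (A ∩ X)`. Lower bound: the heads `x` of the critical pairs `({x}, [x-1] ∪ K)` reversed by a linear extension
form a set disjoint from all the `K` used; average over blocks of all scales (energy increment) and use AM-GM.
-/

set_option autoImplicit false

namespace Pool.Agent.Results.MP_4df60b_co.FractionalLimit

open Filter Topology Pool.Agent.X145.FD

theorem result :
    (∀ k : ℕ, 1 ≤ k → Tendsto (fun n => fdim (PP k n)) atTop (𝓝 (((k:ℝ) + 1) ^ (k + 1) / (k:ℝ) ^ k))) ∧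
    (∀ k n : ℕ, 1 ≤ k → k + 2 ≤ n → fdim (PP k n) ≤ ((k:ℝ) + 1) ^ (k + 1) / (k:ℝ) ^ k) ∧
    (∀ k : ℕ, 2 ≤ k → ((k:ℝ) + 1) ^ (k + 1) / (k:ℝ) ^ k < 2 ^ (k + 1)) ∧
    ¬ ∀ k : ℕ, 1 ≤ k → ∀ ε : ℝ, 0 < ε → ∃ n₀ : ℕ, ∀ n ≥ n₀, 2 ^ (k + 1) - ε < fdim (PP k n) := by
  have e : ∀ k : ℕ, 1 / ck k = ((k:ℝ) + 1) ^ (k + 1) / (k:ℝ) ^ k := fun k => by unfold ck; rw [one_div_div]
  refine ⟨fun k hk => ?_, fun k n hk hn => ?_, fun k hk => ?_, fun h => ?_⟩
  · rw [← e]; exact fdim_tendsto k hk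
  · rw [← e]; exact fdim_le k n hk (by omega)
  · rw [← e]; exact ck_strict k hk
  · have h1 : (1:ℝ) / ck 2 = 27 / 4 := by unfold ck; norm_num
    obtain ⟨n₀, hn₀⟩ := h 2 (by norm_num) 1 (by norm_num)
    have h2 := hn₀ (max n₀ 4) (le_max_left _ _)
    have h3 := fdim_le 2 (max n₀ 4) (by norm_num) (le_trans (by norm_num) (le_max_right _ _))
    rw [h1] at h3
    norm_num at h2
    linarith

end Pool.Agent.Results.MP_4df60b_co.FractionalLimit
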